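import Pool.Agent.Helper95.LN.Stmts
import Pool.Agent.Helper47.PN.REPL
import Pool.Agent.Helper82.PN.PGB

/-!
# Row VIR: lower bound of the virial of the localized field
-/

set_option autoImplicit false

namespace Pool.Agent.Helper53.LN

open MeasureTheory Filter Pool.Agent.Helper95.PW Pool.Agent.Helper95.LN
open Pool.Agent.Helper82.PN (pgb_tri)

theorem VIR_nrsq (y : R3) : nr y ^ 2 = y 0 ^ 2 + y 1 ^ 2 + y 2 ^ 2 := by
  unfold nr
  exact Real.sq_sqrt (by positivity)

theorem VIR_nr0 (y : R3) : 0 ≤ nr y := Real.sqrt_nonneg _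

theorem VIR_comp (y : R3) (m : Fin 3) : |y m| ≤ nr y := by
  refine Real.abs_le_sqrt ?_
  fin_cases m <;> simp <;> nlinarith [sq_nonneg (y 0), sq_nonneg (y 1), sq_nonneg (y 2)]

theorem VIR_sym (u v : R3) : nr (u - v) = nr (v - u) := by
  unfold nr
  congr 1
  simp only [Pi.sub_apply]
  ring

/-- weight of the electron `k` in the ball of the nucleus `i` -/
noncomputable def sw {n M : ℕ} (X : Fin M → R3) (r : ℝ) (x : Cf n) (i : Fin M) (k : Fin n) : ℝ :=
  if nr (x k - X i) < r then 1 else 0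

theorem sw_nonneg {n M : ℕ} (X : Fin M → R3) (r : ℝ) (x : Cf n) (i : Fin M) (k : Fin n) :
    0 ≤ sw X r x i k := by
  unfold sw
  split_ifs <;> norm_num

theorem sw_le {n M : ℕ} (X : Fin M → R3) (r : ℝ) (x : Cf n) (i : Fin M) (k : Fin n) :
    sw X r x i k ≤ 1 := by
  unfold sw
  split_ifs <;> norm_num

theorem VIR_one {n M : ℕ} {X : Fin M → R3} {d : ℝ} (hd : 0 < d) (hS : Sep X d) (x : Cf n)
    (k : Fin n) {i : Fin M} (hi : nr (x k - X i) < 3 / 2 * d) :
    ∑ j, sw X (3 / 2 * d) x j k = 1 := by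
  rw [Finset.sum_eq_single i]
  · unfold sw
    rw [if_pos hi]
  · intro j _ hj
    unfold sw
    rw [if_neg]
    intro h
    have h1 := hS j i hj
    have h2 := pgb_tri (X j) (X i) (x k)
    linarith
  · intro h
    exact absurd (Finset.mem_univ _) h

theorem VIR_le1 {n M : ℕ} {X : Fin M → R3} {d : ℝ} (hd : 0 < d) (hS : Sep X d) (x : Cf n)
    (k : Fin n) : ∑ j, sw X (3 / 2 * d) x j k ≤ 1 := by
  by_cases h : ∃ i, nr (x k - X i) < 3 / 2 * d
  · obtain ⟨i, hi⟩ := h
    exact (VIR_one hd hS x k hi).le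
  · push Not at h
    rw [Finset.sum_eq_zero]
    · norm_num
    · intro i _
      unfold sw
      rw [if_neg (not_lt.2 (h i))]

theorem VIR_van {n M : ℕ} {X : Fin M → R3} {d : ℝ} (hd : 0 < d) (hS : Sep X d) {g : R3 → ℝ}
    (hout : ∀ i y, (∀ j, d ≤ nr (y - X j)) → pd i g y = 0) {x : Cf n} {k : Fin n} {i : Fin M}
    (h1 : nr (x k - X i) < 3 / 2 * d) (h2 : d ≤ nr (x k - X i)) (m : Fin 3) :
    pd m g (x k) = 0 := by
  refine hout m _ fun j => ?_
  by_cases hj : j = i
  · rw [hj]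
    exact h2
  · have h3 := hS j i hj
    have h4 := pgb_tri (X j) (X i) (x k)
    linarith

theorem VIR_pairs {n : ℕ} (a : Fin n → Fin n → ℝ) (h0 : ∀ k, a k k = 0) :
    ∑ k, ∑ l, (if k < l then a k l + a l k else 0) = ∑ k, ∑ l, a k l := by
  have e1 : ∑ k, ∑ l, (if k < l then a k l + a l k else 0) =
      ∑ k, ∑ l, (if k < l then a k l else 0) + ∑ k, ∑ l, (if k < l then a l k else 0) := by
    simp only [← Finset.sum_add_distrib]
    refine Finset.sum_congr rfl fun k _ => Finset.sum_congr rfl fun l _ => ?_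
    split_ifs <;> simp
  have e2 : ∑ k, ∑ l, (if k < l then a l k else 0) = ∑ k, ∑ l, (if l < k then a k l else 0) :=
    Finset.sum_comm
  rw [e1, e2]
  simp only [← Finset.sum_add_distrib]
  refine Finset.sum_congr rfl fun k _ => Finset.sum_congr rfl fun l _ => ?_
  rcases lt_trichotomy k l with h | h | h
  · rw [if_pos h, if_neg (not_lt.2 h.le), add_zero]
  · subst h
    simp [h0]
  · rw [if_neg (not_lt.2 h.le), if_pos h, zero_add]

/-- force of the electron `l` on `k` against the field -/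
noncomputable def ea {n : ℕ} (g : R3 → ℝ) (x : Cf n) (k l : Fin n) : ℝ :=
  (∑ m, pd m g (x k) * (x k m - x l m)) / nr (x k - x l) ^ 3

/-- the same for the nucleus `j` (charge one) -/
noncomputable def na {n M : ℕ} (X : Fin M → R3) (g : R3 → ℝ) (x : Cf n) (k : Fin n)
    (j : Fin M) : ℝ :=
  (∑ m, pd m g (x k) * (x k m - X j m)) / nr (x k - X j) ^ 3

theorem ea_self {n : ℕ} (g : R3 → ℝ) (x : Cf n) (k : Fin n) : ea g x k k = 0 := by
  unfold ea
  simp

theorem ea_add {n : ℕ} (g : R3 → ℝ) (x : Cf n) (k l : Fin n) : ea g x k l + ea g x l k =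
    (∑ m, (pd m g (x k) - pd m g (x l)) * (x k m - x l m)) / nr (x k - x l) ^ 3 := by
  unfold ea
  rw [VIR_sym (x l) (x k), ← add_div]
  congr 1
  rw [← Finset.sum_add_distrib]
  exact Finset.sum_congr rfl fun m _ => by ring

theorem VIR_vir {n M : ℕ} (X : Fin M → R3) (Z : Fin M → ℝ) (g : R3 → ℝ) (x : Cf n) :
    Vir X Z g x = 1 / 2 * ∑ k, (∑ l, ea g x k l - ∑ j, Z j * na X g x k j) := by
  have e1 := VIR_pairs (ea g x) (ea_self g x)
  rw [Finset.sum_sub_distrib, mul_sub, ← e1]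
  simp only [ea_add]
  rfl

theorem VIR_far {n M : ℕ} (d : ℝ) (X : Fin M → R3) (Z : Fin M → ℝ) (g : R3 → ℝ) (x : Cf n)
    (k : Fin n) (i : Fin M) :
    ∑ l, ea g x k l - ∑ j, Z j * na X g x k j =
      ∑ l, sw X (3 / 2 * d) x i l * ea g x k l +
        ∑ m, pd m g (x k) * farE d X Z x i m (x k) - Z i * na X g x k i := by
  have e1 : ∑ m, pd m g (x k) * farE d X Z x i m (x k) =
      ∑ l, (if nr (x l - X i) < 3 / 2 * d then 0 else ea g x k l) -
        ∑ j, (if j = i then 0 else Z j * na X g x k j) := by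
    unfold farE
    simp only [mul_sub, Finset.sum_sub_distrib, Finset.mul_sum]
    congr 1
    · rw [Finset.sum_comm]
      refine Finset.sum_congr rfl fun l _ => ?_
      split_ifs
      · simp
      · unfold ea
        rw [Finset.sum_div]
        exact Finset.sum_congr rfl fun m _ => by ring
    · rw [Finset.sum_comm]
      refine Finset.sum_congr rfl fun j _ => ?_
      split_ifs
      · simp
      · unfold na
        rw [Finset.sum_div, Finset.mul_sum]
        exact Finset.sum_congr rfl fun m _ => by ring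
  have e2 : ∑ l, ea g x k l = ∑ l, sw X (3 / 2 * d) x i l * ea g x k l +
      ∑ l, (if nr (x l - X i) < 3 / 2 * d then 0 else ea g x k l) := by
    rw [← Finset.sum_add_distrib]
    refine Finset.sum_congr rfl fun l _ => ?_
    unfold sw
    split_ifs <;> ring
  have e3 : ∑ j, Z j * na X g x k j = Z i * na X g x k i +
      ∑ j, (if j = i then 0 else Z j * na X g x k j) := by
    have h1 : ∀ j, Z j * na X g x k j = (if j = i then Z i * na X g x k i else 0) +
        (if j = i then 0 else Z j * na X g x k j) := by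
      intro j
      split_ifs with h
      · subst h
        ring
      · ring
    rw [Finset.sum_congr rfl (fun j _ => h1 j), Finset.sum_add_distrib]
    simp
  linarith

theorem VIR_k {n M : ℕ} {X : Fin M → R3} {d : ℝ} (hd : 0 < d) (hS : Sep X d) (Z : Fin M → ℝ)
    {g : R3 → ℝ} (hout : ∀ i y, (∀ j, d ≤ nr (y - X j)) → pd i g y = 0) (x : Cf n)
    (k : Fin n) :
    ∑ l, ea g x k l - ∑ j, Z j * na X g x k j =
      ∑ i, sw X (3 / 2 * d) x i k * (∑ l, ea g x k l - ∑ j, Z j * na X g x k j) := by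
  rw [← Finset.sum_mul]
  by_cases h : ∀ j, d ≤ nr (x k - X j)
  · have h1 : ∀ l, ea g x k l = 0 := by
      intro l
      unfold ea
      simp [hout _ _ h]
    have h2 : ∀ j, na X g x k j = 0 := by
      intro j
      unfold na
      simp [hout _ _ h]
    simp [h1, h2]
  · push Not at h
    obtain ⟨i, hi⟩ := h
    rw [VIR_one hd hS x k (i := i) (by linarith), one_mul]

theorem VIR_id {n M : ℕ} {X : Fin M → R3} {d : ℝ} (hd : 0 < d) (hS : Sep X d) (Z : Fin M → ℝ)
    {g : R3 → ℝ} (hout : ∀ i y, (∀ j, d ≤ nr (y - X j)) → pd i g y = 0) (x : Cf n) :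
    Vir X Z g x = 1 / 2 * (∑ i, (∑ k, ∑ l, (if k < l then
      sw X (3 / 2 * d) x i k * sw X (3 / 2 * d) x i l * (ea g x k l + ea g x l k) else 0)) +
      ∑ i, ∑ k, sw X (3 / 2 * d) x i k * (∑ m, pd m g (x k) * farE d X Z x i m (x k)) -
      ∑ i, ∑ k, sw X (3 / 2 * d) x i k * (Z i * na X g x k i)) := by
  rw [VIR_vir]
  congr 1
  have e1 : ∀ i, ∑ k, ∑ l, (if k < l then
      sw X (3 / 2 * d) x i k * sw X (3 / 2 * d) x i l * (ea g x k l + ea g x l k) else 0) =
      ∑ k, ∑ l, sw X (3 / 2 * d) x i k * sw X (3 / 2 * d) x i l * ea g x k l := by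
    intro i
    rw [← VIR_pairs (fun k l => sw X (3 / 2 * d) x i k * sw X (3 / 2 * d) x i l * ea g x k l)
      (fun k => by simp only [ea_self, mul_zero])]
    refine Finset.sum_congr rfl fun k _ => Finset.sum_congr rfl fun l _ => ?_
    split_ifs
    · ring
    · rfl
  have e2 : ∑ k, (∑ l, ea g x k l - ∑ j, Z j * na X g x k j) =
      ∑ i, ∑ k, sw X (3 / 2 * d) x i k * (∑ l, ea g x k l - ∑ j, Z j * na X g x k j) := by
    rw [Finset.sum_comm]
    exact Finset.sum_congr rfl fun k _ => VIR_k hd hS Z hout x k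
  rw [e2, Finset.sum_congr rfl (fun i _ => e1 i), ← Finset.sum_add_distrib,
    ← Finset.sum_sub_distrib]
  refine Finset.sum_congr rfl fun i _ => ?_
  rw [← Finset.sum_add_distrib, ← Finset.sum_sub_distrib]
  refine Finset.sum_congr rfl fun k _ => ?_
  rw [VIR_far d X Z g x k i]
  have e3 : ∑ l, sw X (3 / 2 * d) x i k * sw X (3 / 2 * d) x i l * ea g x k l =
      sw X (3 / 2 * d) x i k * ∑ l, sw X (3 / 2 * d) x i l * ea g x k l := by
    rw [Finset.mul_sum]
    exact Finset.sum_congr rfl fun l _ => by ring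
  rw [e3]
  ring

/-- near pairs -/
theorem VIR_b1 (h4 : ST_KK) {n M : ℕ} {X : Fin M → R3} {d A : ℝ} (hd : 0 < d) (hA : 1 ≤ A)
    (hS : Sep X d) {g : R3 → ℝ} (hg : ContDiff ℝ (⊤ : ℕ∞) g)
    (hH : ∀ (y : R3) (ξ : Fin 3 → ℝ),
      -(A * ∑ i, ξ i ^ 2) ≤ ∑ i, ∑ l, pd i (pd l g) y * ξ i * ξ l) {x : Cf n}
    (hD : Dist X x) :
    -(A * Rem (d / 8) x) - A * (16 / d) * ∑ i, cnt X (3 / 2 * d) x i ^ 2 ≤
      ∑ i, (∑ k, ∑ l, (if k < l then
      sw X (3 / 2 * d) x i k * sw X (3 / 2 * d) x i l * (ea g x k l + ea g x l k) else 0)) := by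
  have hb : 0 < d / 8 := by positivity
  set t : Fin n → Fin n → ℝ := fun k l =>
    if k < l then 1 / nr (x k - x l) - Kf (d / 8) (x k - x l) else 0 with ht
  have ht0 : ∀ k l, 0 ≤ t k l := by
    intro k l
    rw [ht]
    dsimp only
    split_ifs with h
    · have := (h4 (d / 8) (x k - x l) hb).2.1 (hD.1 k l h.ne)
      linarith
    · exact le_rfl
  have key : ∀ i k l, -(A * (sw X (3 / 2 * d) x i k * t k l)) -
      A * (16 / d) * (sw X (3 / 2 * d) x i k * sw X (3 / 2 * d) x i l) ≤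
      (if k < l then sw X (3 / 2 * d) x i k * sw X (3 / 2 * d) x i l *
        (ea g x k l + ea g x l k) else 0) := by
    intro i k l
    have s1 := sw_nonneg X (3 / 2 * d) x i k
    have s2 := sw_nonneg X (3 / 2 * d) x i l
    have s3 := sw_le X (3 / 2 * d) x i l
    have s4 : 0 ≤ sw X (3 / 2 * d) x i k * sw X (3 / 2 * d) x i l := mul_nonneg s1 s2
    have s5 : 0 ≤ A * (16 / d) := by positivity
    split_ifs with h
    · have hr0 : nr (x k - x l) ≠ 0 := hD.1 k l h.ne
      have hr : 0 < nr (x k - x l) := lt_of_le_of_ne (VIR_nr0 _) (Ne.symm hr0)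
      have hK := (h4 (d / 8) (x k - x l) hb).2.2.2
      have hK2 : 2 / (d / 8) = 16 / d := by
        field_simp
        norm_num
      have htk : t k l = 1 / nr (x k - x l) - Kf (d / 8) (x k - x l) := by
        rw [ht]
        dsimp only
        rw [if_pos h]
      have h1 : 1 / nr (x k - x l) ≤ t k l + 16 / d := by
        rw [htk, ← hK2]
        linarith
      have h2 : -(A * (1 / nr (x k - x l))) ≤ ea g x k l + ea g x l k := by
        rw [ea_add, le_div_iff₀ (by positivity)]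
        have h3 := repl_mono hg hH (x k) (x l)
        refine le_trans (le_of_eq ?_) h3
        have h5 : ∑ i, (x k i - x l i) ^ 2 = nr (x k - x l) ^ 2 := by
          rw [VIR_nrsq, Fin.sum_univ_three]
          simp
        rw [h5]
        field_simp
      have h6 : -(A * (t k l + 16 / d)) ≤ ea g x k l + ea g x l k := by
        refine le_trans ?_ h2
        have := mul_le_mul_of_nonneg_left h1 (by linarith : (0 : ℝ) ≤ A)
        linarith
      have h7 := mul_le_mul_of_nonneg_left h6 s4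
      refine le_trans ?_ h7
      have h8 : sw X (3 / 2 * d) x i k * sw X (3 / 2 * d) x i l * (A * t k l) ≤
          sw X (3 / 2 * d) x i k * 1 * (A * t k l) :=
        mul_le_mul_of_nonneg_right (mul_le_mul_of_nonneg_left s3 s1)
          (mul_nonneg (by linarith) (ht0 k l))
      linarith
    · have := mul_nonneg (by linarith : (0 : ℝ) ≤ A) (mul_nonneg s1 (ht0 k l))
      have := mul_nonneg s5 s4
      linarith
  have h9 : ∑ i, ∑ k, ∑ l, (-(A * (sw X (3 / 2 * d) x i k * t k l)) -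
      A * (16 / d) * (sw X (3 / 2 * d) x i k * sw X (3 / 2 * d) x i l)) ≤
      ∑ i, (∑ k, ∑ l, (if k < l then
      sw X (3 / 2 * d) x i k * sw X (3 / 2 * d) x i l * (ea g x k l + ea g x l k) else 0)) :=
    Finset.sum_le_sum fun i _ => Finset.sum_le_sum fun k _ => Finset.sum_le_sum fun l _ =>
      key i k l
  refine le_trans ?_ h9
  simp only [Finset.sum_sub_distrib, Finset.sum_neg_distrib, ← Finset.mul_sum]
  have e1 : ∑ i, cnt X (3 / 2 * d) x i ^ 2 =
      ∑ i, ∑ k, sw X (3 / 2 * d) x i k * ∑ l, sw X (3 / 2 * d) x i l := by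
    refine Finset.sum_congr rfl fun i _ => ?_
    rw [← Finset.sum_mul, pow_two]
    rfl
  have e2 : ∑ i, ∑ k, sw X (3 / 2 * d) x i k * ∑ l, t k l ≤ Rem (d / 8) x := by
    rw [Finset.sum_comm]
    unfold Rem
    refine Finset.sum_le_sum fun k _ => ?_
    rw [← Finset.sum_mul]
    have h10 : 0 ≤ ∑ l, t k l := Finset.sum_nonneg fun l _ => ht0 k l
    calc _ ≤ 1 * ∑ l, t k l := mul_le_mul_of_nonneg_right (VIR_le1 hd hS x k) h10
      _ = _ := one_mul _
  rw [e1]
  have e3 := mul_le_mul_of_nonneg_left e2 (by linarith : (0 : ℝ) ≤ A)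
  linarith

/-- far charges -/
theorem VIR_b2 {n M : ℕ} {X : Fin M → R3} {d A : ℝ} (hd : 0 < d) (hA : 1 ≤ A)
    (hS : Sep X d) {g : R3 → ℝ} (Z : Fin M → ℝ)
    (hout : ∀ i y, (∀ j, d ≤ nr (y - X j)) → pd i g y = 0) (h1 : ∀ i y, |pd i g y| ≤ A)
    (x : Cf n) {e : Fin M → ℝ} (he : ∀ i m y, nr (y - X i) ≤ d → |farE d X Z x i m y| ≤ e i) :
    -(3 / 2 * A * (∑ i, e i ^ 2 + ∑ i, cnt X (3 / 2 * d) x i ^ 2)) ≤
      ∑ i, ∑ k, sw X (3 / 2 * d) x i k *
        (∑ m, pd m g (x k) * farE d X Z x i m (x k)) := by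
  have he0 : ∀ i, 0 ≤ e i := by
    intro i
    refine le_trans (abs_nonneg _) (he i 0 (X i) ?_)
    rw [sub_self]
    have : nr (0 : R3) = 0 := by simp [nr]
    rw [this]
    exact hd.le
  have key : ∀ i k, -(sw X (3 / 2 * d) x i k * (3 * A * e i)) ≤ sw X (3 / 2 * d) x i k *
      (∑ m, pd m g (x k) * farE d X Z x i m (x k)) := by
    intro i k
    by_cases h : nr (x k - X i) < 3 / 2 * d
    · have hb : -(3 * A * e i) ≤ ∑ m, pd m g (x k) * farE d X Z x i m (x k) := by
        have hm : ∀ m, -(A * e i) ≤ pd m g (x k) * farE d X Z x i m (x k) := by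
          intro m
          by_cases h2 : nr (x k - X i) ≤ d
          · have h3 : |pd m g (x k) * farE d X Z x i m (x k)| ≤ A * e i := by
              rw [abs_mul]
              exact mul_le_mul (h1 _ _) (he i m _ h2) (abs_nonneg _) (by linarith)
            exact (abs_le.1 h3).1
          · push Not at h2
            rw [VIR_van hd hS hout h h2.le, zero_mul]
            have := mul_nonneg (by linarith : (0 : ℝ) ≤ A) (he0 i)
            linarith
        rw [Fin.sum_univ_three]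
        linarith [hm 0, hm 1, hm 2]
      have h5 := mul_le_mul_of_nonneg_left hb (sw_nonneg X (3 / 2 * d) x i k)
      linarith
    · unfold sw
      rw [if_neg h]
      simp
  have h6 : ∑ i, ∑ k, -(sw X (3 / 2 * d) x i k * (3 * A * e i)) ≤
      ∑ i, ∑ k, sw X (3 / 2 * d) x i k *
        (∑ m, pd m g (x k) * farE d X Z x i m (x k)) :=
    Finset.sum_le_sum fun i _ => Finset.sum_le_sum fun k _ => key i k
  refine le_trans ?_ h6
  rw [← Finset.sum_add_distrib, Finset.mul_sum, ← Finset.sum_neg_distrib]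
  refine Finset.sum_le_sum fun i _ => ?_
  rw [Finset.sum_neg_distrib, ← Finset.sum_mul]
  have e1 : ∑ k, sw X (3 / 2 * d) x i k = cnt X (3 / 2 * d) x i := rfl
  rw [e1]
  nlinarith [mul_nonneg (by linarith : (0 : ℝ) ≤ A) (sq_nonneg (e i - cnt X (3 / 2 * d) x i))]

/-- the own nucleus -/
theorem VIR_b3 {n M : ℕ} {X : Fin M → R3} {z d A : ℝ} (hz : 0 ≤ z) (hd : 0 < d) (hA : 1 ≤ A)
    (hS : Sep X d) {g : R3 → ℝ} {Z : Fin M → ℝ} (hZ0 : ∀ j, 0 ≤ Z j) (hZ : ∀ j, Z j ≤ z)
    (hout : ∀ i y, (∀ j, d ≤ nr (y - X j)) → pd i g y = 0) (h1 : ∀ i y, |pd i g y| ≤ A)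
    {x : Cf n} (hD : Dist X x) :
    ∑ i, ∑ k, sw X (3 / 2 * d) x i k * (Z i * na X g x k i) ≤
      3 * A * z * ∑ k, near2 X d (x k) := by
  have key : ∀ i k, sw X (3 / 2 * d) x i k * (Z i * na X g x k i) ≤
      3 * A * z * (if nr (x k - X i) < d then 1 / nr (x k - X i) ^ 2 else 0) := by
    intro i k
    by_cases h : nr (x k - X i) < 3 / 2 * d
    · have hs : sw X (3 / 2 * d) x i k = 1 := by
        unfold sw
        rw [if_pos h]
      rw [hs, one_mul]
      by_cases h2 : nr (x k - X i) < d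
      · rw [if_pos h2]
        have hr : 0 < nr (x k - X i) := lt_of_le_of_ne (VIR_nr0 _) (Ne.symm (hD.2 k i))
        have h3 : na X g x k i ≤ 3 * A * (1 / nr (x k - X i) ^ 2) := by
          unfold na
          rw [div_le_iff₀ (by positivity)]
          have hm : ∀ m, pd m g (x k) * (x k m - X i m) ≤ A * nr (x k - X i) := by
            intro m
            refine le_trans (le_abs_self _) ?_
            rw [abs_mul]
            refine mul_le_mul (h1 _ _) ?_ (abs_nonneg _) (by linarith)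
            exact VIR_comp (x k - X i) m
          have e1 : 3 * A * (1 / nr (x k - X i) ^ 2) * nr (x k - X i) ^ 3 =
              3 * A * nr (x k - X i) := by
            field_simp
          rw [e1, Fin.sum_univ_three]
          linarith [hm 0, hm 1, hm 2]
        have h5 : 0 ≤ 3 * A * (1 / nr (x k - X i) ^ 2) := by positivity
        calc Z i * na X g x k i ≤ Z i * (3 * A * (1 / nr (x k - X i) ^ 2)) :=
              mul_le_mul_of_nonneg_left h3 (hZ0 i)
          _ ≤ z * (3 * A * (1 / nr (x k - X i) ^ 2)) := mul_le_mul_of_nonneg_right (hZ i) h5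
          _ = _ := by ring
      · rw [if_neg h2]
        push Not at h2
        have h3 : na X g x k i = 0 := by
          unfold na
          simp [VIR_van hd hS hout h h2]
        rw [h3]
        simp
    · have hs : sw X (3 / 2 * d) x i k = 0 := by
        unfold sw
        rw [if_neg h]
      rw [hs, zero_mul]
      have h4 : 0 ≤ 3 * A * z := by positivity
      refine mul_nonneg h4 ?_
      split_ifs <;> positivity
  unfold near2
  rw [Finset.sum_comm, Finset.mul_sum]
  refine Finset.sum_le_sum fun k _ => ?_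
  rw [Finset.mul_sum]
  exact Finset.sum_le_sum fun i _ => key i k

theorem VIR_kap : 0 ≤ kap := by
  unfold kap
  refine integral_nonneg fun y => ?_
  have hc : 0 ≤ cb := by
    unfold cb
    exact intervalIntegral.integral_nonneg (by norm_num) fun t _ => sq_nonneg _
  show 0 ≤ et 1 y
  unfold et
  positivity

theorem VIR_Dn {n M : ℕ} (b : ℝ) (X : Fin M → R3) (Z : Fin M → ℝ) (x : Cf n) :
    0 ≤ Dn b X Z x := by
  unfold Dn
  refine mul_nonneg (by have := VIR_kap; positivity) (integral_nonneg fun w => ?_)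
  exact Finset.sum_nonneg fun i _ => sq_nonneg _

theorem VIR (h1 : ST_ES1) (h2 : ST_NB) (h3 : ST_FF) (h4 : ST_KK) : ST_VIR := by
  intro z d A hz hd hA
  obtain ⟨C1, hC1, k1⟩ := h1 z d hz hd
  obtain ⟨C2, hC2, k2⟩ := h2 z d hz hd
  obtain ⟨C3, hC3, k3⟩ := h3 z d hz hd
  have hA0 : (0 : ℝ) ≤ A := by linarith
  set P : ℝ := 1 / 2 * (A + A * (16 / d) * (3 * C2) + 3 / 2 * A * (3 * C3 + 3 * C2) +
    3 * A * z) with hP
  have hP0 : 0 ≤ P := by
    rw [hP]
    positivity
  refine ⟨C1 + z * d + P + 1, by positivity, ?_⟩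
  intro n M X Z g x hS hN hn hZ1 hZ hg hout hA1 hH hD
  have hZ0 : ∀ j, 0 ≤ Z j := hN.1
  have q1 := k1 n M X Z x hS hN hZ hD
  have q2 := k2 n M X Z x hS hZ0 hZ
  obtain ⟨e, he, q3⟩ := k3 n M X Z x hS hZ0 hZ
  set Dd := Dn (d / 8) X Z x with hDd
  set V := Vc X Z x with hV
  set N2 := ∑ k, near2 X d (x k) with hN2
  have hN20 : 0 ≤ N2 := by
    rw [hN2]
    refine Finset.sum_nonneg fun k _ => ?_
    unfold near2
    refine Finset.sum_nonneg fun j _ => ?_
    split_ifs <;> positivity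
  have hM : (M : ℝ) ≤ n := by
    have h5 : ∑ _j : Fin M, (1 : ℝ) ≤ ∑ j, Z j := Finset.sum_le_sum fun j _ => hZ1 j
    rw [hN.2] at h5
    simpa using h5
  have hn0 : (0 : ℝ) ≤ n := Nat.cast_nonneg n
  have hR : 0 ≤ Rem (d / 8) x := by
    unfold Rem
    refine Finset.sum_nonneg fun k _ => Finset.sum_nonneg fun l _ => ?_
    split_ifs with h
    · have := (h4 (d / 8) (x k - x l) (by positivity)).2.1 (hD.1 k l h.ne)
      linarith
    · exact le_rfl
  have hN1 : ∑ k, near1 X d (x k) ≤ d * N2 := by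
    rw [hN2, Finset.mul_sum]
    refine Finset.sum_le_sum fun k _ => ?_
    unfold near1 near2
    rw [Finset.mul_sum]
    refine Finset.sum_le_sum fun j _ => ?_
    split_ifs with h
    · have hr : 0 < nr (x k - X j) := lt_of_le_of_ne (VIR_nr0 _) (Ne.symm (hD.2 k j))
      rw [mul_one_div, div_le_div_iff₀ hr (by positivity)]
      nlinarith
    · simp
  have hD0 : 0 ≤ Dd := VIR_Dn _ _ _ _
  have hcn : 0 ≤ ∑ i, cnt X (3 / 2 * d) x i ^ 2 := Finset.sum_nonneg fun i _ => sq_nonneg _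
  have hq1 : 1 / 2 * Dd + Rem (d / 8) x ≤ V + C1 * n + z * d * N2 := by
    have := mul_le_mul_of_nonneg_left hN1 hz
    linarith
  set Y : ℝ := V + (C1 + z * d + P + 1) * (n + N2) with hY
  have hzd : 0 ≤ z * d := by positivity
  have r1 : V + C1 * n + z * d * N2 + n + N2 ≤ Y := by
    have t1 : 0 ≤ (z * d + P) * n := by positivity
    have t2 : 0 ≤ (C1 + P) * N2 := by positivity
    rw [hY]
    nlinarith
  have r2 : 0 ≤ Y := by linarith
  have r3 : (n : ℝ) ≤ Y := by linarith
  have r4 : N2 ≤ Y := by linarith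
  have r5 : Dd ≤ 2 * Y := by linarith
  have r6 : Rem (d / 8) x ≤ Y := by linarith
  have r7 : (M : ℝ) + Dd ≤ 3 * Y := by linarith
  have r8 : ∑ i, cnt X (3 / 2 * d) x i ^ 2 ≤ 3 * C2 * Y := by
    have := mul_le_mul_of_nonneg_left r7 hC2.le
    linarith
  have r9 : ∑ i, e i ^ 2 ≤ 3 * C3 * Y := by
    have := mul_le_mul_of_nonneg_left r7 hC3.le
    linarith
  refine ⟨r2, ?_⟩
  have b1 := VIR_b1 h4 hd hA hS hg hH hD
  have b2 := VIR_b2 hd hA hS Z hout hA1 x he
  have b3 := VIR_b3 hz hd hA hS hZ0 hZ hout hA1 hD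
  have m1 := mul_le_mul_of_nonneg_left r6 hA0
  have m2 := mul_le_mul_of_nonneg_left r8 (by positivity : 0 ≤ A * (16 / d))
  have m3 := mul_le_mul_of_nonneg_left (add_le_add r9 r8) (by positivity : 0 ≤ 3 / 2 * A)
  have m4 := mul_le_mul_of_nonneg_left r4 (by positivity : 0 ≤ 3 * A * z)
  rw [VIR_id hd hS Z hout x]
  have f1 : -(P * Y) ≤ 1 / 2 * (∑ i, (∑ k, ∑ l, (if k < l then
      sw X (3 / 2 * d) x i k * sw X (3 / 2 * d) x i l * (ea g x k l + ea g x l k) else 0)) +
      ∑ i, ∑ k, sw X (3 / 2 * d) x i k * (∑ m, pd m g (x k) * farE d X Z x i m (x k)) -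
      ∑ i, ∑ k, sw X (3 / 2 * d) x i k * (Z i * na X g x k i)) := by
    have e1 : P * Y = 1 / 2 * (A * Y + A * (16 / d) * (3 * C2 * Y) +
        3 / 2 * A * (3 * C3 * Y + 3 * C2 * Y) + 3 * A * z * Y) := by
      rw [hP]
      ring
    rw [e1]
    linarith
  have f2 : P * Y ≤ (C1 + z * d + P + 1) * Y := by
    have : 0 ≤ (C1 + z * d + 1) * Y := by positivity
    linarith
  linarith

end Pool.Agent.Helper53.LN
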